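import Pool.Agent.Q229.CPM.Prim

/-!
# Recognising contracted proportionally modular numerical semigroups
-/

namespace Pool.Agent.Results.MP_bd8ab5_nt.RecognisingCPM

/-- There is an algorithm (a primitive recursive function `f` on lists of natural numbers) which,
for every list `l` of positive integers with greatest common divisor `1`, decides whether the
numerical semigroup generated by `l` equals `P(a,b,c,d) ∪ {0}` for some nonnegative integers
`a, b, c, d` with `b ≠ 0 ≠ c`, where `P(a,b,c,d)` is the set of all integers `x` with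
`a x mod b ≤ c x - d`. -/
theorem result : ∃ f : List ℕ → Bool, Primrec f ∧ ∀ l : List ℕ, (∀ n ∈ l, 0 < n) →
    l.foldr Nat.gcd 0 = 1 →
    (f l = true ↔ ∃ a b c d : ℕ, b ≠ 0 ∧ c ≠ 0 ∧
      (fun n : ℕ => (n : ℤ)) '' (AddSubmonoid.closure {x | x ∈ l} : Set ℕ) =
        {x : ℤ | ((a : ℤ) * x) % (b : ℤ) ≤ (c : ℤ) * x - (d : ℤ)} ∪ {0}) :=
  Q229.CPM.final

end Pool.Agent.Results.MP_bd8ab5_nt.RecognisingCPM
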